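import Pool.Agent.U627.CT.Proper

/-!
# The preimage of the set of non-conical limit points can have positive Hausdorff dimension

Definitions: `Pool.Agent.H322R3.HypDefs` (word metric, Gromov products, Gromov boundary,
convergence actions), `Pool.Agent.R639.CT.Defs` (trees, geometric actions, visual metrics, Hausdorff
dimension) and `Pool.Agent.U627.CT.Dyn` (limit set, conical points).
-/

set_option autoImplicit false

namespace Pool.Agent.Results.MP_9c739d_al.NonConicalPreimagePositiveDim

open Filter Topology Pool.Agent.H322R3.Hyp Pool.Agent.R639.CT Pool.Agent.U627.CT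

/-- Let `H` be the free group of rank three (with its standard basis), a word-hyperbolic group.
There are an infinite compact metrizable space `Z` with a convergence action of `H` by
homeomorphisms, with limit set `Z` (so the action is non-elementary), and a continuous equivariant
surjective map `f : ∂H → Z` with the following property: for every geodesic `0`-hyperbolic space `X`
(an `ℝ`-tree) with a geometric action of `H`, every base point `x₀ ∈ X`, every `a > 1` and every
visual metric `m` on `∂H` with respect to `X, x₀, a`, the preimage under `f` of the set of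
non-conical limit points of `H` in `Z` has positive Hausdorff dimension with respect to `m`. Such
data exist: there is a proper `X` for which there is a visual metric for every base point and every
`a > 1`. -/
theorem result :
    IsHyperbolic (basis 3) ∧
    ∃ (Z : Type) (_ : TopologicalSpace Z) (_ : MulAction (FreeGroup (Fin 3)) Z)
      (f : Boundary (basis 3) → Z),
      CompactSpace Z ∧ TopologicalSpace.MetrizableSpace Z ∧ Infinite Z ∧
      (∀ h : FreeGroup (Fin 3), Continuous (fun z : Z => h • z)) ∧
      IsConvergenceAction (FreeGroup (Fin 3)) Z ∧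
      limitSet (FreeGroup (Fin 3)) Z = Set.univ ∧
      Continuous f ∧ Function.Surjective f ∧
      (∀ (h : FreeGroup (Fin 3)) (ξ : Boundary (basis 3)),
        f (bsmul (closure_basis 3) h ξ) = h • f ξ) ∧
      (∀ (X : Type) (_ : MetricSpace X) (_ : MulAction (FreeGroup (Fin 3)) X), IsTree X →
        IsGeometric (FreeGroup (Fin 3)) X → ∀ (x₀ : X) (a : ℝ), 1 < a →
        ∀ m : MetricSpace (Boundary (basis 3)), IsVisual (basis 3) x₀ a m →
          0 < hausdorffDim m {p | f p ∈ limitSet (FreeGroup (Fin 3)) Z ∧
            ¬ IsConicalPt (FreeGroup (Fin 3)) (f p)}) ∧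
      ∃ (X : Type) (_ : MetricSpace X) (_ : MulAction (FreeGroup (Fin 3)) X), IsTree X ∧
        ProperSpace X ∧ IsGeometric (FreeGroup (Fin 3)) X ∧
        ∀ (x₀ : X) (a : ℝ), 1 < a →
          ∃ m : MetricSpace (Boundary (basis 3)), IsVisual (basis 3) x₀ a m := by
  refine ⟨isHyperbolic_free, Pool.Agent.U627.CT.Z, inferInstance, inferInstance,
    Pool.Agent.U627.CT.f, inferInstance, inferInstance, inferInstance,
    fun h => continuous_const_smul h, conv_Z, limitSet_Z, f_continuous, f_surj, f_smul,
    ?_, XX, inferInstance, inferInstance, XX_tree, inferInstance, XX_geom,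
    fun x₀ a ha => ⟨visMetric a ha, visMetric_visual a ha x₀⟩⟩
  intro X _ _ hX hG x₀ a ha m hm
  have h1 := dim_bp hX hG x₀ a ha m hm
  refine lt_of_lt_of_le h1 ?_
  refine @dimH_mono _ (@MetricSpace.toEMetricSpace _ m) _ _ ?_
  rintro _ ⟨s, rfl⟩
  refine ⟨by rw [limitSet_Z]; trivial, ?_⟩
  rw [f_bp s, ← f_bp (fun _ => 0)]
  apply nonconical (ξ₂ := bp (fun _ => 1)) _ (by rw [f_bp, f_bp])
  intro h
  have := congrFun (bp_inj h) 0
  exact absurd this (by decide)

end Pool.Agent.Results.MP_9c739d_al.NonConicalPreimagePositiveDim
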